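import Mathlib
import Pool.Agent.W275.UB.Stm

set_option autoImplicit false

namespace Pool.Agent.W72.UBDisc

open MvPolynomial Pool.Agent.H936R2 Pool.Agent.H927R2.RD H294UB Pool.Agent.W275.UB

lemma unit_of_dvd_sub {A : Type} [CommRing A] [IsDomain A] [IsDiscreteValuationRing A]
    {π : A} (hπ : Irreducible π) {a b : A} (hb : IsUnit b) (h : π ∣ a - b) : IsUnit a := by
  by_contra ha
  have h1 : a ∈ IsLocalRing.maximalIdeal A := (IsLocalRing.mem_maximalIdeal a).2 ha
  have h2 : a - b ∈ IsLocalRing.maximalIdeal A := by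
    rw [hπ.maximalIdeal_eq]
    exact Ideal.mem_span_singleton.2 h
  have h3 : b ∈ IsLocalRing.maximalIdeal A := by
    have := Ideal.sub_mem _ h1 h2
    rwa [sub_sub_cancel] at this
  exact ((IsLocalRing.mem_maximalIdeal b).1 h3) hb

lemma zero_of_forall_dvd {A : Type} [CommRing A] [IsDomain A] [IsDiscreteValuationRing A]
    {π : A} (hπ : Irreducible π) {a : A} (N : ℕ) (h : ∀ s, N ≤ s → π ^ s ∣ a) : a = 0 := by
  by_contra ha
  obtain ⟨m, u, hu⟩ := IsDiscreteValuationRing.eq_unit_mul_pow_irreducible ha hπ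
  have h1 := h (N + m + 1) (by omega)
  rw [hu, show N + m + 1 = (N + 1) + m by ring, pow_add] at h1
  have h2 : π ^ (N + 1) ∣ (u : A) := (mul_dvd_mul_iff_right (pow_ne_zero m hπ.ne_zero)).1 h1
  have h3 : π ∣ (u : A) := dvd_trans (dvd_pow_self π (Nat.succ_ne_zero N)) h2
  exact hπ.not_isUnit (isUnit_of_dvd_unit h3 u.isUnit)

/-- one step -/
lemma step {A : Type} [CommRing A] [IsDomain A] [IsDiscreteValuationRing A] [CharZero A]
    (h : S_eul) {π : A} (hπ : Irreducible π) {n d V : ℕ} (hd : 1 ≤ d)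
    {P : Fin n → MvPolynomial (Fin n) A} (hP : ∀ i, (P i).IsHomogeneous d)
    {x : Fin n → A} {c : A} (hx : Prim x) (hc : IsUnit c)
    (hfix : pt P x = c • x) (hdet : ¬ π ^ (V + 1) ∣ (jac P x).det)
    {y : Fin n → A} {l : A} {s : ℕ} (hs : V + 1 ≤ s) (hy : Cong π s y x)
    (hl : pt P y = l • x) : ∃ μ : A, IsUnit μ ∧ Cong π (s + 1) (μ • y) x := by
  obtain ⟨i0, hi0⟩ := hx
  obtain ⟨z, hz⟩ := hi0.exists_right_inv
  obtain ⟨hsc, -, heul, htay⟩ := h A n d P hP
  have hπ0 : π ≠ 0 := hπ.ne_zero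
  set J := jac P x with hJ
  have hD0 : J.det ≠ 0 := by
    intro h0
    exact hdet (by rw [h0]; exact dvd_zero _)
  obtain ⟨v0, u, hu⟩ := IsDiscreteValuationRing.eq_unit_mul_pow_irreducible hD0 hπ
  have hv0 : v0 ≤ V := by
    by_contra hlt
    apply hdet
    rw [hu]
    exact Dvd.dvd.mul_left (pow_dvd_pow π (by omega)) _
  have hdc : (d : A) * c ≠ 0 := mul_ne_zero (by exact_mod_cast (by omega : d ≠ 0)) hc.ne_zero
  -- the eigenvector of the adjugate
  have hadj : ∀ i, ((d : A) * c) * (J.adjugate.mulVec x) i = J.det * x i := by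
    intro i
    have h1 : J.adjugate.mulVec (J.mulVec x) = J.det • x := by
      rw [Matrix.mulVec_mulVec, Matrix.adjugate_mul, Matrix.smul_mulVec, Matrix.one_mulVec]
    rw [heul x, hfix, smul_smul, Matrix.mulVec_smul] at h1
    have := congrFun h1 i
    simpa [Pi.smul_apply, smul_eq_mul] using this
  set κ := z * (J.adjugate.mulVec x) i0 with hκ
  have hadj' : ∀ i, (J.adjugate.mulVec x) i = κ * x i := by
    intro i
    apply mul_left_cancel₀ hdc
    rw [hadj i, hκ]
    have h2 := hadj i0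
    linear_combination (-(x i) * z) * h2 - (J.det * x i) * hz
  -- write y = x + π ^ s t
  choose t ht using hy
  have hyt : y = x + (π ^ s) • t := by
    funext i
    simp only [Pi.add_apply, Pi.smul_apply, smul_eq_mul]
    linear_combination ht i
  obtain ⟨w, hw⟩ := htay (π ^ s) x t
  rw [← hyt, hl, hfix] at hw
  have h3 : ∀ i, π ^ s * (J.det * t i) =
      (l - c) * (κ * x i) - (π ^ s) ^ 2 * (J.adjugate.mulVec w) i := by
    intro i
    have h4 : J.adjugate.mulVec (π ^ s • J.mulVec t) =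
        J.adjugate.mulVec ((l - c) • x - (π ^ s) ^ 2 • w) := by
      congr 1
      funext j
      have := congrFun hw j
      simp only [Pi.add_apply, Pi.smul_apply, smul_eq_mul, Pi.sub_apply] at this ⊢
      linear_combination -this
    rw [Matrix.mulVec_smul, Matrix.mulVec_mulVec, Matrix.adjugate_mul, Matrix.smul_mulVec,
      Matrix.one_mulVec, Matrix.mulVec_sub, Matrix.mulVec_smul, Matrix.mulVec_smul] at h4
    have h5 := congrFun h4 i
    simp only [Pi.smul_apply, smul_eq_mul, Pi.sub_apply] at h5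
    rw [hadj' i] at h5
    exact h5
  have hdiv : ∀ i, π ∣ t i - z * t i0 * x i := by
    intro i
    set w' := J.adjugate.mulVec w with hw'
    have h6 : J.det * (t i - z * t i0 * x i) = π ^ s * (z * w' i0 * x i - w' i) := by
      apply mul_left_cancel₀ (pow_ne_zero s hπ0)
      have e1 := h3 i
      have e2 := h3 i0
      linear_combination e1 - (z * x i) * e2 - ((l - c) * κ * x i) * hz
    have h7 : (u : A) * (t i - z * t i0 * x i) = π ^ (s - v0) * (z * w' i0 * x i - w' i) := by
      apply mul_left_cancel₀ (pow_ne_zero v0 hπ0)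
      have e3 : π ^ v0 * π ^ (s - v0) = π ^ s := by
        rw [← pow_add]; congr 1; omega
      calc π ^ v0 * ((u : A) * (t i - z * t i0 * x i))
          = ((u : A) * π ^ v0) * (t i - z * t i0 * x i) := by ring
        _ = π ^ s * (z * w' i0 * x i - w' i) := by rw [← hu, h6]
        _ = π ^ v0 * (π ^ (s - v0) * (z * w' i0 * x i - w' i)) := by rw [← e3]; ring
    have h8 : π ∣ (u : A) * (t i - z * t i0 * x i) := by
      rw [h7]
      exact Dvd.dvd.mul_right (dvd_pow_self π (by omega)) _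
    exact (Units.dvd_mul_left).1 h8
  have hμ : IsUnit (1 + π ^ s * (z * t i0)) := by
    apply unit_of_dvd_sub hπ isUnit_one
    rw [add_sub_cancel_left]
    exact Dvd.dvd.mul_right (dvd_pow_self π (by omega)) _
  obtain ⟨ν, hν⟩ := hμ.exists_left_inv
  refine ⟨ν, IsUnit.of_mul_eq_one _ hν, ?_⟩
  intro i
  obtain ⟨q, hq⟩ := hdiv i
  refine ⟨ν * q, ?_⟩
  simp only [Pi.smul_apply, smul_eq_mul]
  have h9 := ht i
  have : ν * y i - x i = ν * (π ^ s * (t i - z * t i0 * x i)) := by
    linear_combination ν * h9 + (x i) * hν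
  rw [this, hq]
  ring

theorem main : S_eul → S_disc := by
  intro h A _ _ _ _ π hπ n d V hd P hP x y c l hx hc hfix hdet hy hl
  have key : ∀ k : ℕ, ∃ ν : A, IsUnit ν ∧ Cong π (V + 1 + k) (ν • y) x := by
    intro k
    induction k with
    | zero =>
      refine ⟨1, isUnit_one, ?_⟩
      rw [one_smul]
      exact hy
    | succ k ih =>
      obtain ⟨ν, hν, hc1⟩ := ih
      have hl' : pt P (ν • y) = (ν ^ d * l) • x := by
        rw [(h A n d P hP).1 ν y, hl, smul_smul]
      obtain ⟨μ, hμ, hc2⟩ := step h hπ hd hP hx hc hfix hdet (by omega) hc1 hl'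
      refine ⟨μ * ν, hμ.mul hν, ?_⟩
      rw [mul_smul]
      exact hc2
  obtain ⟨i0, hi0⟩ := hx
  obtain ⟨z, hz⟩ := hi0.exists_right_inv
  have hall : ∀ i, y i * x i0 - y i0 * x i = 0 := by
    intro i
    apply zero_of_forall_dvd hπ (V + 1)
    intro s hs
    obtain ⟨ν, hν, hcg⟩ := key (s - (V + 1))
    rw [show V + 1 + (s - (V + 1)) = s by omega] at hcg
    have h1 := hcg i
    have h2 := hcg i0
    simp only [Pi.smul_apply, smul_eq_mul] at h1 h2
    have h3 : π ^ s ∣ ν * (y i * x i0 - y i0 * x i) := by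
      have e : ν * (y i * x i0 - y i0 * x i) =
          (ν * y i - x i) * x i0 - (ν * y i0 - x i0) * x i := by ring
      rw [e]
      exact dvd_sub (h1.mul_right _) (h2.mul_right _)
    obtain ⟨ν', rfl⟩ := hν
    exact (Units.dvd_mul_left).1 h3
  refine ⟨z * y i0, ?_, ?_⟩
  · have h1 : IsUnit (y i0) := by
      apply unit_of_dvd_sub hπ hi0
      exact dvd_trans (dvd_pow_self π (Nat.succ_ne_zero V)) (hy i0)
    exact (IsUnit.of_mul_eq_one (x i0) (by rw [mul_comm]; exact hz)).mul h1
  · funext i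
    simp only [Pi.smul_apply, smul_eq_mul]
    linear_combination z * hall i - (y i) * hz

end Pool.Agent.W72.UBDisc
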